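import Mathlib
import Pool.Agent.H76.SC.Final2

/-!
# A finitely presented group without coarse embedding and without weakly embedded expander

The group is constructed in the files `Pool/Agent/H76/SC` (small cancellation over automata,
Higman embedding). Here the two properties are stated for the word metric of an arbitrary finite
generating set, with control functions, Cheeger constants and Lipschitz maps, and for Hilbert
spaces and graphs in all universes.
-/

set_option autoImplicit false
set_option linter.style.haveILetI false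

namespace Pool.Agent.Results.MP_122f18_al.FinitelyPresentedExample

open Filter
open scoped NNReal

universe u v

/-- The word metric of the finite generating set `S`: `wordDist S x y` is the least `n` such that
`x⁻¹ * y` is a product of `n` factors each of which is an element of `S` or the inverse of one. -/
noncomputable def wordDist {G : Type*} [Group G] (S : Finset G) (x y : G) : ℕ :=
  sInf {n : ℕ | ∃ l : List G, (∀ a ∈ l, a ∈ S ∨ a⁻¹ ∈ S) ∧ l.length = n ∧ l.prod = x⁻¹ * y}

/-- `f : G → H`, `H` a real Hilbert space, is a coarse embedding for the word metric of `S`. -/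
def IsCoarseEmbedding {G : Type*} [Group G] (S : Finset G) {H : Type*} [NormedAddCommGroup H]
    (f : G → H) : Prop :=
  ∃ ρ₁ ρ₂ : ℝ≥0 → ℝ≥0, Monotone ρ₁ ∧ Monotone ρ₂ ∧ Tendsto ρ₁ atTop atTop ∧
    ∀ x y : G, (ρ₁ (wordDist S x y) : ℝ) ≤ ‖f x - f y‖ ∧
      ‖f x - f y‖ ≤ (ρ₂ (wordDist S x y) : ℝ)

/-- `X 0, X 1, ...` is an expander: finite connected graphs, all degrees at most `D`, numbers of
vertices tending to infinity, and Cheeger constants at least one `c > 0`: every nonempty set `A` of
at most half of the vertices is joined to its complement by at least `c |A|` edges. -/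
structure IsExpander (V : ℕ → Type v) (X : ∀ n, SimpleGraph (V n)) : Prop where
  finite : ∀ n, Finite (V n)
  connected : ∀ n, (X n).Connected
  degree : ∃ D : ℕ, ∀ (n : ℕ) (x : V n), ((X n).neighborSet x).ncard ≤ D
  card : Tendsto (fun n => Nat.card (V n)) atTop atTop
  cheeger : ∃ c : ℝ, 0 < c ∧ ∀ (n : ℕ) (A : Set (V n)), A.Nonempty →
    2 * A.ncard ≤ Nat.card (V n) →
    c * A.ncard ≤ ({p : V n × V n | p.1 ∈ A ∧ p.2 ∉ A ∧ (X n).Adj p.1 p.2}.ncard : ℝ)

/-- The maps `f n : X n → G` are Lipschitz with one constant, for the path metric of `X n` and the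
word metric of `S`, and their largest fibres are a vanishing proportion of the vertices. -/
def IsWeakEmbedding {G : Type*} [Group G] (S : Finset G) (V : ℕ → Type v)
    (X : ∀ n, SimpleGraph (V n)) (f : ∀ n, V n → G) : Prop :=
  (∃ L : ℝ, ∀ (n : ℕ) (x y : V n), (wordDist S (f n x) (f n y) : ℝ) ≤ L * (X n).dist x y) ∧
    ∀ δ : ℝ, 0 < δ → ∀ᶠ n in atTop, ∀ g : G,
      ({x : V n | f n x = g}.ncard : ℝ) / Nat.card (V n) ≤ δ

/-! ### Word metrics -/

section word

variable {G : Type*} [Group G] {S : Finset G}

private lemma wordDist_le {x y : G} {l : List G} (hl : ∀ a ∈ l, a ∈ S ∨ a⁻¹ ∈ S)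
    (h : l.prod = x⁻¹ * y) : wordDist S x y ≤ l.length :=
  Nat.sInf_le ⟨l, hl, rfl, h⟩

private lemma exists_word (hS : Subgroup.closure (S : Set G) = ⊤) (x y : G) :
    ∃ l : List G, (∀ a ∈ l, a ∈ S ∨ a⁻¹ ∈ S) ∧ l.length = wordDist S x y ∧
      l.prod = x⁻¹ * y := by
  have hne : {n : ℕ | ∃ l : List G, (∀ a ∈ l, a ∈ S ∨ a⁻¹ ∈ S) ∧ l.length = n ∧
      l.prod = x⁻¹ * y}.Nonempty := by
    have hmem : x⁻¹ * y ∈ Submonoid.closure ((S : Set G) ∪ (S : Set G)⁻¹) := by
      rw [← Subgroup.closure_toSubmonoid, hS]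
      trivial
    obtain ⟨l, hl, hp⟩ := Submonoid.exists_list_of_mem_closure hmem
    exact ⟨l.length, l, fun a ha => by simpa using hl a ha, rfl, hp⟩
  exact Nat.sInf_mem hne

private lemma wordDist_one_mul (hS : Subgroup.closure (S : Set G) = ⊤) (a b : G) :
    wordDist S 1 (a * b) ≤ wordDist S 1 a + wordDist S 1 b := by
  obtain ⟨l, hl, hn, hp⟩ := exists_word hS 1 a
  obtain ⟨m, hm, hn', hp'⟩ := exists_word hS 1 b
  have h : (l ++ m).prod = 1⁻¹ * (a * b) := by
    rw [List.prod_append, hp, hp']
    group
  have := wordDist_le (S := S) (x := 1) (y := a * b) (l := l ++ m) (by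
    intro c hc
    rcases List.mem_append.1 hc with hc | hc
    · exact hl c hc
    · exact hm c hc) h
  rw [List.length_append, hn, hn'] at this
  exact this

private lemma wordDist_one_inv (hS : Subgroup.closure (S : Set G) = ⊤) (a : G) :
    wordDist S 1 a⁻¹ ≤ wordDist S 1 a := by
  obtain ⟨l, hl, hn, hp⟩ := exists_word hS 1 a
  have h : ((l.map (fun x => x⁻¹)).reverse).prod = 1⁻¹ * a⁻¹ := by
    rw [← List.prod_inv_reverse, hp]
    group
  have := wordDist_le (S := S) (x := 1) (y := a⁻¹) (l := (l.map (fun x => x⁻¹)).reverse) (by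
    intro c hc
    rw [List.mem_reverse, List.mem_map] at hc
    obtain ⟨d, hd, rfl⟩ := hc
    rcases hl d hd with h | h
    · right
      simpa using h
    · left
      exact h) h
  rw [List.length_reverse, List.length_map, hn] at this
  exact this

private lemma wordDist_one_one : wordDist S (1 : G) 1 = 0 := by
  have := wordDist_le (S := S) (x := (1 : G)) (y := 1) (l := []) (by simp) (by simp)
  simpa using this

private lemma wordDist_eq (x y : G) : wordDist S x y = wordDist S 1 (x⁻¹ * y) := by
  unfold wordDist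
  simp

end word

section compare

variable {n : ℕ} {G : Type*} [Group G] {S : Finset G} (π : FreeGroup (Fin n) →* G)

private lemma compare_up (hS : Subgroup.closure (S : Set G) = ⊤) :
    ∃ M : ℕ, ∀ w : FreeGroup (Fin n), wordDist S 1 (π w) ≤ M * w.toWord.length := by
  refine ⟨∑ i : Fin n, wordDist S 1 (π (FreeGroup.of i)), fun w => ?_⟩
  set M := ∑ i : Fin n, wordDist S 1 (π (FreeGroup.of i)) with hM
  have h0 : ∀ i : Fin n, wordDist S 1 (π (FreeGroup.of i)) ≤ M := fun i =>
    Finset.single_le_sum (f := fun i => wordDist S 1 (π (FreeGroup.of i)))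
      (fun _ _ => Nat.zero_le _) (Finset.mem_univ i)
  have key : ∀ L : List (Fin n × Bool),
      wordDist S 1 (π (FreeGroup.mk L)) ≤ M * L.length := by
    intro L
    induction L with
    | nil =>
      rw [← FreeGroup.one_eq_mk, map_one, wordDist_one_one]
      simp
    | cons p L ih =>
      have e : (FreeGroup.mk (p :: L) : FreeGroup (Fin n)) = FreeGroup.mk [p] * FreeGroup.mk L := by
        rw [FreeGroup.mul_mk]
        rfl
      have hp : wordDist S 1 (π (FreeGroup.mk [p])) ≤ M := by
        obtain ⟨i, b⟩ := p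
        cases b with
        | true => exact h0 i
        | false =>
          have e2 : (FreeGroup.mk [(i, false)] : FreeGroup (Fin n)) = (FreeGroup.of i)⁻¹ := by
            rw [FreeGroup.of, FreeGroup.inv_mk]
            rfl
          rw [e2, map_inv]
          exact (wordDist_one_inv hS _).trans (h0 i)
      rw [e, map_mul]
      refine (wordDist_one_mul hS _ _).trans ?_
      rw [List.length_cons, Nat.mul_succ]
      omega
  have := key w.toWord
  rwa [FreeGroup.mk_toWord] at this

private lemma compare_down (hπ : Function.Surjective π) :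
    ∃ M : ℕ, ∀ l : List G, (∀ a ∈ l, a ∈ S ∨ a⁻¹ ∈ S) →
      ∃ w : FreeGroup (Fin n), w.toWord.length ≤ M * l.length ∧ π w = l.prod := by
  classical
  choose sec hsec using hπ
  refine ⟨∑ s ∈ S, (sec s).toWord.length, fun l => ?_⟩
  set M := ∑ s ∈ S, (sec s).toWord.length with hM
  have h0 : ∀ s ∈ S, (sec s).toWord.length ≤ M := fun s hs =>
    Finset.single_le_sum (f := fun s => (sec s).toWord.length) (fun _ _ => Nat.zero_le _) hs
  induction l with
  | nil => exact fun _ => ⟨1, by simp, by simp⟩
  | cons a l ih =>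
    intro hl
    obtain ⟨w, hw, hw'⟩ := ih (fun b hb => hl b (List.mem_cons_of_mem _ hb))
    have ha : ∃ v : FreeGroup (Fin n), v.toWord.length ≤ M ∧ π v = a := by
      rcases hl a List.mem_cons_self with h | h
      · exact ⟨sec a, h0 a h, hsec a⟩
      · refine ⟨(sec a⁻¹)⁻¹, ?_, by rw [map_inv, hsec, inv_inv]⟩
        have := FreeGroup.norm_inv_eq (x := sec a⁻¹)
        unfold FreeGroup.norm at this
        rw [this]
        exact h0 _ h
    obtain ⟨v, hv, hv'⟩ := ha
    refine ⟨v * w, ?_, by rw [map_mul, hv', hw', List.prod_cons]⟩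
    have := FreeGroup.norm_mul_le v w
    unfold FreeGroup.norm at this
    rw [List.length_cons, Nat.mul_succ]
    omega

end compare

/-! ### A map to a Hilbert space may be replaced by one to a complete space in `Type` -/

private lemma exists_small {G : Type} {H : Type u} [NormedAddCommGroup H] [InnerProductSpace ℝ H]
    (f : G → H) : ∃ (H' : Type) (_ : NormedAddCommGroup H') (_ : InnerProductSpace ℝ H')
      (_ : CompleteSpace H') (f' : G → H'), ∀ x y, ‖f' x - f' y‖ = ‖f x - f y‖ := by
  classical
  let T : (G →₀ ℝ) →ₗ[ℝ] H := Finsupp.linearCombination ℝ f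
  let E := (G →₀ ℝ) ⧸ LinearMap.ker T
  let T' : E →ₗ[ℝ] H := (LinearMap.ker T).liftQ T le_rfl
  have hT' : Function.Injective T' := by
    rw [← LinearMap.ker_eq_bot]
    exact Submodule.ker_liftQ_eq_bot _ _ _ le_rfl
  letI : NormedAddCommGroup E := NormedAddCommGroup.induced E H T'.toAddMonoidHom hT'
  have hnorm : ∀ x : E, ‖x‖ = ‖T' x‖ := fun x => rfl
  letI : NormedSpace ℝ E := ⟨fun a x => by
    rw [hnorm, hnorm, map_smul, norm_smul]⟩
  letI : InnerProductSpace ℝ E :=
    { inner := fun x y => inner ℝ (T' x) (T' y)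
      norm_sq_eq_re_inner := fun x => by
        rw [hnorm]
        exact norm_sq_eq_re_inner (𝕜 := ℝ) (T' x)
      conj_inner_symm := fun x y => inner_conj_symm (𝕜 := ℝ) (T' x) (T' y)
      add_left := fun x y z => by
        change inner ℝ (T' (x + y)) (T' z) = inner ℝ (T' x) (T' z) + inner ℝ (T' y) (T' z)
        rw [map_add, inner_add_left]
      smul_left := fun x y r => by
        change inner ℝ (T' (r • x)) (T' y) = _ * inner ℝ (T' x) (T' y)
        rw [map_smul, inner_smul_left] }
  refine ⟨UniformSpace.Completion E, inferInstance, inferInstance, inferInstance,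
    fun g => ((Submodule.Quotient.mk (Finsupp.single g 1) : E) : UniformSpace.Completion E), ?_⟩
  intro x y
  rw [← UniformSpace.Completion.coe_sub, UniformSpace.Completion.norm_coe, hnorm]
  congr 1
  rw [map_sub]
  have : ∀ g : G, T' (Submodule.Quotient.mk (Finsupp.single g 1)) = f g := by
    intro g
    change T (Finsupp.single g 1) = f g
    simp [T]
  rw [this, this]

/-- **Result.** There is a finitely presented group `G` such that for every finite generating set
`S` of `G`, with its word metric, no map from `G` to a real Hilbert space (complete or not, of any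
universe) is a coarse embedding, and there is no expander with a weak embedding into `G`. -/
theorem result : ∃ (G : Type) (_ : Group G), Group.IsFinitelyPresented G ∧
    ∀ S : Finset G, Subgroup.closure (S : Set G) = ⊤ →
      (∀ (H : Type u) [NormedAddCommGroup H] [InnerProductSpace ℝ H] (f : G → H),
        ¬ IsCoarseEmbedding S f) ∧
      ∀ (V : ℕ → Type v) (X : ∀ n, SimpleGraph (V n)), IsExpander V X →
        ∀ f : ∀ n, V n → G, ¬ IsWeakEmbedding S V X f := by
  classical
  obtain ⟨n, rels, hce, hwee⟩ := Pool.Agent.H76.SC.final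
  refine ⟨PresentedGroup (rels : Set (FreeGroup (Fin n))), inferInstance, inferInstance, ?_⟩
  intro S hS
  have hπ := PresentedGroup.mk_surjective (rels : Set (FreeGroup (Fin n)))
  obtain ⟨M, hM⟩ := compare_up (PresentedGroup.mk (rels : Set (FreeGroup (Fin n)))) hS
  obtain ⟨M', hM'⟩ := compare_down (S := S) (PresentedGroup.mk (rels : Set (FreeGroup (Fin n)))) hπ
  refine ⟨?_, ?_⟩
  · intro H _ _ f hf
    obtain ⟨ρ₁, ρ₂, h1, h2, h3, h4⟩ := hf
    obtain ⟨H', i1, i2, i3, f', hf'⟩ := exists_small f
    refine hce ⟨H', i1, i2, i3, f', ?_, ?_⟩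
    · intro k
      refine ⟨(ρ₂ ((M * k : ℕ) : ℝ≥0) : ℝ), ?_⟩
      rintro g h ⟨w, hw, rfl⟩
      rw [hf']
      refine (h4 _ _).2.trans ?_
      have : wordDist S g (g * PresentedGroup.mk (rels : Set (FreeGroup (Fin n))) w) ≤ M * k := by
        rw [wordDist_eq]
        have e : g⁻¹ * (g * PresentedGroup.mk (rels : Set (FreeGroup (Fin n))) w) =
            PresentedGroup.mk (rels : Set (FreeGroup (Fin n))) w := by group
        rw [e]
        exact (hM w).trans (Nat.mul_le_mul_left _ hw)
      exact_mod_cast h2 (by exact_mod_cast this)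
    · intro R
      obtain ⟨t, ht⟩ := (tendsto_atTop.1 h3 (R.toNNReal + 1)).exists_forall_of_atTop
      obtain ⟨k, hk⟩ := exists_nat_gt (t : ℝ)
      refine ⟨M' * k, ?_⟩
      intro g h hgh
      rw [hf'] at hgh
      obtain ⟨l, hl, hn, hp⟩ := exists_word hS g h
      have hlt : wordDist S g h ≤ k := by
        by_contra hcon
        push Not at hcon
        have h5 : t ≤ ((wordDist S g h : ℕ) : ℝ≥0) := by
          have : (t : ℝ) ≤ (wordDist S g h : ℝ) := hk.le.trans (by exact_mod_cast hcon.le)
          exact_mod_cast this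
        have h6 := ht _ h5
        have h7 : ((R.toNNReal + 1 : ℝ≥0) : ℝ) ≤ R :=
          (NNReal.coe_le_coe.2 h6).trans ((h4 g h).1.trans hgh)
        have h8 : R ≤ (R.toNNReal : ℝ) := Real.le_coe_toNNReal R
        rw [NNReal.coe_add, NNReal.coe_one] at h7
        linarith
      obtain ⟨w, hw, hw'⟩ := hM' l hl
      refine ⟨w, hw.trans (Nat.mul_le_mul_left _ (by rw [hn]; exact hlt)), ?_⟩
      rw [hw', hp]
      group
  · rintro V X ⟨hfin, hconn, ⟨D, hD⟩, hcard, c, hc, hcheeger⟩ f ⟨⟨L, hL⟩, hfib⟩
    have e : ∀ m, V m ≃ Fin (Nat.card (V m)) := fun m => by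
      haveI := hfin m
      exact Finite.equivFin (V m)
    refine hwee ⟨fun m => Nat.card (V m), fun m => (X m).comap (e m).symm, D,
      M' * ⌈L⌉₊, c, fun m x => f m ((e m).symm x), hc, hcard, ?_, ?_, ?_, ?_⟩
    · intro m x
      refine le_trans (le_of_eq ?_) (hD m ((e m).symm x))
      rw [← Nat.card_coe_set_eq]
      exact Nat.card_congr ((e m).symm.subtypeEquiv (fun u => Iff.rfl))
    · intro m A hA
      have h1 : Nat.card A = ((e m) ⁻¹' A : Set (V m)).ncard := by
        rw [← Nat.card_coe_set_eq]
        exact (Nat.card_congr ((e m).subtypeEquiv (fun u => Iff.rfl))).symm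
      have h2 : Nat.card {p : Fin (Nat.card (V m)) × Fin (Nat.card (V m)) //
          p.1 ∈ A ∧ p.2 ∉ A ∧ ((X m).comap (e m).symm).Adj p.1 p.2} =
          {p : V m × V m | p.1 ∈ (e m) ⁻¹' A ∧ p.2 ∉ (e m) ⁻¹' A ∧
            (X m).Adj p.1 p.2}.ncard := by
        rw [← Nat.card_coe_set_eq]
        refine (Nat.card_congr (((e m).prodCongr (e m)).subtypeEquiv (fun p => ?_))).symm
        simp [SimpleGraph.comap_adj]
      rw [h1] at hA ⊢
      rw [h2]
      rcases Set.eq_empty_or_nonempty ((e m) ⁻¹' A : Set (V m)) with h0 | h0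
      · rw [h0]
        simp
      · exact hcheeger m _ h0 hA
    · intro m x y hxy
      have hxy' : (X m).Adj ((e m).symm x) ((e m).symm y) := hxy
      have h1 := hL m ((e m).symm x) ((e m).symm y)
      rw [SimpleGraph.dist_eq_one_iff_adj.2 hxy', Nat.cast_one, mul_one] at h1
      have h2 : wordDist S (f m ((e m).symm x)) (f m ((e m).symm y)) ≤ ⌈L⌉₊ := by
        exact_mod_cast h1.trans (Nat.le_ceil L)
      obtain ⟨l, hl, hn, hp⟩ := exists_word hS (f m ((e m).symm x)) (f m ((e m).symm y))
      obtain ⟨w, hw, hw'⟩ := hM' l hl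
      refine ⟨w, hw.trans (Nat.mul_le_mul_left _ (by rw [hn]; exact h2)), ?_⟩
      rw [hw', hp]
      group
    · intro δ hδ
      obtain ⟨K, hK⟩ := ((hfib δ hδ).and (hcard.eventually_ge_atTop 1)).exists_forall_of_atTop
      refine ⟨K, fun m hm x => ?_⟩
      obtain ⟨h1, h2⟩ := hK m hm
      have h3 := h1 x
      have h4 : (0 : ℝ) < Nat.card (V m) := by exact_mod_cast h2
      rw [div_le_iff₀ h4] at h3
      refine le_trans (le_of_eq ?_) h3
      norm_cast
      rw [← Nat.card_coe_set_eq]
      exact Nat.card_congr ((e m).symm.subtypeEquiv (fun u => Iff.rfl))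

end Pool.Agent.Results.MP_122f18_al.FinitelyPresentedExample
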