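import Mathlib
import Pool.Agent.H76.Final1

set_option autoImplicit false

namespace Pool.Agent.Results.MP_122f18_al.RPEmbedding

/-- The group `G`, marked by the homomorphism `π` from the free group on `r` letters (used for
surjective `π`), coarsely embeds into a real Hilbert space for the word metric of the marking:
`f` is bornologous and effectively proper. -/
def CoarselyEmbeds {r : ℕ} {G : Type} [Group G] (π : FreeGroup (Fin r) →* G) : Prop :=
  ∃ (H : Type) (_ : NormedAddCommGroup H) (_ : InnerProductSpace ℝ H) (_ : CompleteSpace H)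
    (f : G → H),
    (∀ k : ℕ, ∃ C : ℝ, ∀ g h : G,
      (∃ w : FreeGroup (Fin r), w.toWord.length ≤ k ∧ h = g * π w) → ‖f g - f h‖ ≤ C) ∧
    (∀ R : ℝ, ∃ k : ℕ, ∀ g h : G,
      ‖f g - f h‖ ≤ R → ∃ w : FreeGroup (Fin r), w.toWord.length ≤ k ∧ h = g * π w)

/-- The group `G`, marked by `π`, contains a weakly embedded expander: finite graphs of degree at
most `D`, edge expansion at least `ε`, numbers of vertices tending to infinity, maps moving adjacent
vertices to elements at word distance at most `L`, with fibres of vanishing proportion. -/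
def ContainsWeaklyEmbeddedExpander {r : ℕ} {G : Type} [Group G] (π : FreeGroup (Fin r) →* G) :
    Prop :=
  ∃ (N : ℕ → ℕ) (Gr : ∀ m : ℕ, SimpleGraph (Fin (N m))) (D L : ℕ) (ε : ℝ)
      (φ : ∀ m : ℕ, Fin (N m) → G),
    0 < ε ∧
    Filter.Tendsto N Filter.atTop Filter.atTop ∧
    (∀ (m : ℕ) (v : Fin (N m)), Nat.card {u : Fin (N m) // (Gr m).Adj v u} ≤ D) ∧
    (∀ (m : ℕ) (A : Set (Fin (N m))), 2 * Nat.card A ≤ N m →
      ε * (Nat.card A : ℝ) ≤
        (Nat.card {p : Fin (N m) × Fin (N m) //
          p.1 ∈ A ∧ p.2 ∉ A ∧ (Gr m).Adj p.1 p.2} : ℝ)) ∧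
    (∀ (m : ℕ) (u v : Fin (N m)), (Gr m).Adj u v →
      ∃ w : FreeGroup (Fin r), w.toWord.length ≤ L ∧ φ m v = φ m u * π w) ∧
    (∀ δ : ℝ, 0 < δ → ∃ M : ℕ, ∀ m : ℕ, M ≤ m → ∀ x : G,
      (Nat.card {v : Fin (N m) // φ m v = x} : ℝ) ≤ δ * (N m : ℝ))

/-- **Result.** Every finitely generated group `G` whose set of words representing the identity is
recursively enumerable and which contains no weakly embedded expander embeds in a finitely presented
group which contains no weakly embedded expander; if moreover `G` does not coarsely embed into a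
Hilbert space then neither does the finitely presented group. -/
theorem result : ∀ (r : ℕ) (G : Type) [Group G] (π : FreeGroup (Fin r) →* G),
    Function.Surjective π →
    REPred (fun w : List (Fin r × Bool) => π (FreeGroup.mk w) = 1) →
    ¬ ContainsWeaklyEmbeddedExpander π →
    ∃ (n : ℕ) (rels : Finset (FreeGroup (Fin n)))
      (j : G →* PresentedGroup (rels : Set (FreeGroup (Fin n)))), Function.Injective j ∧
      ¬ ContainsWeaklyEmbeddedExpander (PresentedGroup.mk (rels : Set (FreeGroup (Fin n)))) ∧
      (¬ CoarselyEmbeds π →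
        ¬ CoarselyEmbeds (PresentedGroup.mk (rels : Set (FreeGroup (Fin n))))) :=
  fun r G _ π h1 h2 h3 => Pool.Agent.H76.Final1.main r G π h1 h2 h3

end Pool.Agent.Results.MP_122f18_al.RPEmbedding
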